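import Mathlib

set_option autoImplicit false

namespace Pool.Agent.Helper814.Thue

/-- The digits of the block `01202120102012102120210` (base 4 encoding). -/
def hd (r : ℕ) : ℕ := 6760700126756 / 4 ^ r % 4

/-- three blocks -/
def sel (a b c q : ℕ) : ℕ := if q = 0 then a else if q = 1 then b else c

/-- image of the three letters `a b c` -/
def U3 (a b c m : ℕ) : ℕ := (hd (m % 23) + sel a b c (m / 23)) % 3

/-- colour at depth `d` of the branch at spine position `i` -/
def col (U : ℕ → ℕ) (i d : ℕ) : ℕ := (U (i + 1) + d * (U i + 2 * U (i + 1))) % 3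

/-- letter number `t` of the path going from depth `e` at spine position `i` to the branch at
spine position `i + D` -/
def pl (U : ℕ → ℕ) (i e D t : ℕ) : ℕ :=
  if t < e then col U i (e - t) else if t ≤ e + D then U (i + 1 + (t - e))
  else col U (i + D) (t - e - D)


def lt2 (r a b m : ℕ) : ℕ := (hd ((r + m) % 23) + (if r + m < 23 then a else b)) % 3

def syncOK : Bool :=
  (List.range 23).all fun r1 => (List.range 23).all fun r2 => r1 == r2 ||
    (List.range 3).all fun a => (List.range 3).all fun b => a == b ||
      (List.range 3).all fun c => (List.range 3).all fun d => c == d ||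
        (List.range 14).any fun m => !(lt2 r1 a b m == lt2 r2 c d m)

theorem syncOK_true : syncOK = true := by decide +kernel

def pathOK : Bool :=
  (List.range 23).all fun r =>
    (List.range 3).all fun a => (List.range 3).all fun b => a == b ||
      (List.range 3).all fun c => b == c ||
        (List.range 5).all fun e => (!(e == 0) && !(U3 a b c r == U3 a b c (r + 2))) ||
          (List.range 5).all fun f => (List.range 22).all fun p => p == 0 || (2 * p < e + f + 1) ||
            (!(f == 0) && !(U3 a b c (r + (2 * p - 1 - e - f)) ==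
              U3 a b c (r + (2 * p - 1 - e - f) + 2))) ||
            (2 * p == e + f + 1 && !(e == 0) && !(f == 0)) ||
            (List.range p).any fun t =>
              !(pl (U3 a b c) r e (2 * p - 1 - e - f) t ==
                pl (U3 a b c) r e (2 * p - 1 - e - f) (t + p))

theorem pathOK_true : pathOK = true := by decide +kernel

def sqOK : Bool :=
  (List.range 23).all fun r =>
    (List.range 3).all fun a => (List.range 3).all fun b => a == b ||
      (List.range 3).all fun c => b == c ||
        (List.range 14).all fun p => p == 0 ||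
          (List.range p).any fun t => !(U3 a b c (r + t) == U3 a b c (r + p + t))

theorem sqOK_true : sqOK = true := by decide +kernel


theorem sync_fin {r1 r2 a b c d : ℕ} (h1 : r1 < 23) (h2 : r2 < 23) (h12 : r1 ≠ r2) (ha : a < 3)
    (hb : b < 3) (hab : a ≠ b) (hc : c < 3) (hd' : d < 3) (hcd : c ≠ d) :
    ∃ m < 14, lt2 r1 a b m ≠ lt2 r2 c d m := by
  have h := syncOK_true
  simp only [syncOK, List.all_eq_true, List.mem_range, Bool.or_eq_true, beq_iff_eq,
    List.any_eq_true, Bool.not_eq_true', beq_eq_false_iff_ne] at h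
  have := (h r1 h1 r2 h2).resolve_left h12
  have := (this a ha b hb).resolve_left hab
  exact (this c hc d hd').resolve_left hcd

theorem path_fin {r a b c e f p : ℕ} (h1 : r < 23) (ha : a < 3) (hb : b < 3) (hab : a ≠ b)
    (hc : c < 3) (hbc : b ≠ c) (he : e < 5) (hf : f < 5) (hp : p < 22) (hp0 : 0 < p)
    (hef : e + f + 1 ≤ 2 * p)
    (hze : e = 0 ∨ U3 a b c r = U3 a b c (r + 2))
    (hzf : f = 0 ∨ U3 a b c (r + (2 * p - 1 - e - f)) = U3 a b c (r + (2 * p - 1 - e - f) + 2))
    (hD : 2 * p = e + f + 1 → e = 0 ∨ f = 0) :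
    ∃ t < p, pl (U3 a b c) r e (2 * p - 1 - e - f) t ≠
      pl (U3 a b c) r e (2 * p - 1 - e - f) (t + p) := by
  have h := pathOK_true
  simp only [pathOK, List.all_eq_true, List.mem_range, Bool.or_eq_true, beq_iff_eq,
    List.any_eq_true, Bool.not_eq_true', beq_eq_false_iff_ne, Bool.and_eq_true,
    decide_eq_true_eq] at h
  have := (h r h1 a ha b hb).resolve_left hab
  have := (this c hc).resolve_left hbc
  have := (this e he).resolve_left (by tauto)
  have := this f hf p hp
  rcases this with (((h | h) | h) | h) | h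
  · omega
  · omega
  · exact absurd h (by tauto)
  · have := hD h.1.1
    tauto
  · exact h

theorem sq_fin {r a b c p : ℕ} (h1 : r < 23) (ha : a < 3) (hb : b < 3) (hab : a ≠ b)
    (hc : c < 3) (hbc : b ≠ c) (hp : p < 14) (hp0 : 0 < p) :
    ∃ t < p, U3 a b c (r + t) ≠ U3 a b c (r + p + t) := by
  have h := sqOK_true
  simp only [sqOK, List.all_eq_true, List.mem_range, Bool.or_eq_true, beq_iff_eq,
    List.any_eq_true, Bool.not_eq_true', beq_eq_false_iff_ne] at h
  have := (h r h1 a ha b hb).resolve_left hab
  have := (this c hc).resolve_left hbc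
  exact (this p hp).resolve_left (by omega)

/-- The infinite word. -/
def F (m : ℕ) : ℕ := ((Nat.digits 23 m).map hd).sum % 3

theorem F_lt (m : ℕ) : F m < 3 := Nat.mod_lt _ (by norm_num)

theorem F_rec (m : ℕ) : F m = (hd (m % 23) + F (m / 23)) % 3 := by
  rcases Nat.eq_zero_or_pos m with h | h
  · subst h; decide
  · unfold F
    rw [Nat.digits_def' (by norm_num) h]
    simp [Nat.add_mod]

theorem F_block (q y : ℕ) : F (23 * q + y) = (hd (y % 23) + F (q + y / 23)) % 3 := by
  rw [F_rec]
  have h1 : (23 * q + y) % 23 = y % 23 := by omega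
  have h2 : (23 * q + y) / 23 = q + y / 23 := by omega
  rw [h1, h2]

theorem F_ne (m : ℕ) : F m ≠ F (m + 1) := by
  induction m using Nat.strong_induction_on with
  | _ m ih =>
    rcases lt_or_ge (m % 23) 22 with h | h
    · have e1 : F m = (hd (m % 23) + F (m / 23)) % 3 := F_rec m
      have e2 : F (m + 1) = (hd (m % 23 + 1) + F (m / 23)) % 3 := by
        rw [F_rec]
        have h1 : (m + 1) % 23 = m % 23 + 1 := by omega
        have h2 : (m + 1) / 23 = m / 23 := by omega
        rw [h1, h2]
      have key : ∀ r < 22, ∀ x < 3, (hd r + x) % 3 ≠ (hd (r + 1) + x) % 3 := by decide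
      rw [e1, e2]
      exact key _ h _ (F_lt _)
    · have e1 : F m = F (m / 23) := by
        rw [F_rec]
        have h1 : m % 23 = 22 := by omega
        rw [h1]
        have : hd 22 = 0 := by decide
        rw [this, Nat.zero_add]
        exact Nat.mod_eq_of_lt (F_lt _)
      have e2 : F (m + 1) = F (m / 23 + 1) := by
        rw [F_rec]
        have h1 : (m + 1) % 23 = 0 := by omega
        have h2 : (m + 1) / 23 = m / 23 + 1 := by omega
        rw [h1, h2]
        have : hd 0 = 0 := by decide
        rw [this, Nat.zero_add]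
        exact Nat.mod_eq_of_lt (F_lt _)
      rw [e1, e2]
      rcases Nat.eq_zero_or_pos m with h0 | h0
      · omega
      · exact ih _ (by omega)

theorem F_three (q y : ℕ) (hy : y < 69) :
    F (23 * q + y) = U3 (F q) (F (q + 1)) (F (q + 2)) y := by
  rw [F_block]
  unfold U3 sel
  rcases Nat.lt_or_ge y 23 with h | h
  · have : y / 23 = 0 := by omega
    simp [this]
  · rcases Nat.lt_or_ge y 46 with h' | h'
    · have : y / 23 = 1 := by omega
      simp [this]
    · have : y / 23 = 2 := by omega
      simp [this]

theorem F_two (q r m : ℕ) (h : r + m < 46) :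
    F (23 * q + r + m) = lt2 r (F q) (F (q + 1)) m := by
  rw [Nat.add_assoc, F_block]
  unfold lt2
  rcases Nat.lt_or_ge (r + m) 23 with h' | h'
  · have : (r + m) / 23 = 0 := by omega
    simp [this, h']
  · have : (r + m) / 23 = 1 := by omega
    have h2 : ¬ (r + m < 23) := by omega
    simp [this, h2]

theorem sync {x p : ℕ} (h : ∀ m < 14, F (x + m) = F (x + p + m)) : p % 23 = 0 := by
  by_contra hp
  have hr : x % 23 ≠ (x + p) % 23 := by omega
  obtain ⟨m, hm, hne⟩ := sync_fin (Nat.mod_lt x (by norm_num)) (Nat.mod_lt (x + p) (by norm_num)) hr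
    (F_lt (x / 23)) (F_lt (x / 23 + 1)) (F_ne _) (F_lt ((x + p) / 23)) (F_lt ((x + p) / 23 + 1))
    (F_ne _)
  apply hne
  have h1 := Nat.mod_lt x (show 0 < 23 by norm_num)
  have h2 := Nat.mod_lt (x + p) (show 0 < 23 by norm_num)
  rw [← F_two _ _ _ (by omega), ← F_two _ _ _ (by omega)]
  have e1 : 23 * (x / 23) + x % 23 = x := Nat.div_add_mod x 23
  have e2 : 23 * ((x + p) / 23) + (x + p) % 23 = x + p := Nat.div_add_mod (x + p) 23
  rw [e1, e2]
  exact h m hm

/-- descent of long matches to the previous level -/
theorem descend {x q M : ℕ} (hM : 23 * q < M + 23) (h : ∀ m < M, F (x + m) = F (x + 23 * q + m)) :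
    ∀ t < q, F (x / 23 + t) = F (x / 23 + q + t) := by
  intro t ht
  obtain ⟨m, hm, hdiv⟩ : ∃ m < M, (x + m) / 23 = x / 23 + t := by
    rcases Nat.eq_zero_or_pos t with h0 | h0
    · refine ⟨0, by omega, by simp [h0]⟩
    · refine ⟨23 * (x / 23 + t) - x, by omega, ?_⟩
      have : x + (23 * (x / 23 + t) - x) = 23 * (x / 23 + t) := by omega
      rw [this]
      simp
  have h1 := h m hm
  rw [F_rec (x + m), F_rec (x + 23 * q + m)] at h1
  have e1 : (x + 23 * q + m) % 23 = (x + m) % 23 := by omega
  have e2 : (x + 23 * q + m) / 23 = (x + m) / 23 + q := by omega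
  rw [e1, e2, hdiv] at h1
  have a1 := F_lt (x / 23 + t)
  have a2 := F_lt (x / 23 + t + q)
  have e3 : x / 23 + q + t = x / 23 + t + q := by ring
  rw [e3]
  omega

theorem sqfree : ∀ p, 0 < p → ∀ b, ∃ t < p, F (b + t) ≠ F (b + p + t) := by
  intro p
  induction p using Nat.strong_induction_on with
  | _ p ih =>
    intro hp b
    rcases Nat.lt_or_ge p 14 with h | h
    · obtain ⟨t, ht, hne⟩ := sq_fin (Nat.mod_lt b (by norm_num)) (F_lt (b / 23)) (F_lt (b / 23 + 1))
        (F_ne _) (F_lt (b / 23 + 2)) (F_ne (b / 23 + 1)) h hp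
      refine ⟨t, ht, ?_⟩
      have h1 := Nat.mod_lt b (show 0 < 23 by norm_num)
      rw [← F_three _ _ (by omega), ← F_three _ _ (by omega)] at hne
      have e1 : 23 * (b / 23) + (b % 23 + t) = b + t := by omega
      have e2 : 23 * (b / 23) + (b % 23 + p + t) = b + p + t := by omega
      rwa [e1, e2] at hne
    · by_contra hcon
      push Not at hcon
      have h0 : p % 23 = 0 := sync (x := b) (p := p) (fun m hm => hcon m (by omega))
      obtain ⟨q, rfl⟩ : ∃ q, p = 23 * q := ⟨p / 23, by omega⟩
      have := descend (x := b) (q := q) (M := 23 * q) (by omega) hcon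
      obtain ⟨t, ht, hne⟩ := ih q (by omega) (by omega) (b / 23)
      exact hne (this t ht)

/-- The main property of the word: no path word is a square. -/
theorem nice {i e D f p : ℕ} (he : e ≤ 4) (hf : f ≤ 4) (hp : 0 < p) (hlen : 2 * p = e + D + 1 + f)
    (hze : e = 0 ∨ F i = F (i + 2)) (hzf : f = 0 ∨ F (i + D) = F (i + D + 2))
    (hD : D = 0 → e = 0 ∨ f = 0) :
    ∃ t < p, pl F i e D t ≠ pl F i e D (t + p) := by
  rcases Nat.lt_or_ge p 22 with h | h
  · have hr := Nat.mod_lt i (show 0 < 23 by norm_num)
    have hDD : 2 * p - 1 - e - f = D := by omega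
    have hF : ∀ y, y < 46 → F (i + y) =
        U3 (F (i / 23)) (F (i / 23 + 1)) (F (i / 23 + 2)) (i % 23 + y) := by
      intro y hy
      rw [← F_three _ _ (by omega)]
      congr 1
      omega
    have := path_fin (r := i % 23) (a := F (i / 23)) (b := F (i / 23 + 1)) (c := F (i / 23 + 2))
      (e := e) (f := f) (p := p) hr (F_lt _) (F_lt _) (F_ne _) (F_lt _) (F_ne _) (by omega)
      (by omega) h hp (by omega)
      (by
        rcases hze with h0 | h0
        · exact Or.inl h0
        · right
          rw [← hF 2 (by omega), ← h0]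
          have := hF 0 (by omega)
          simpa using this.symm)
      (by
        rw [hDD]
        rcases hzf with h0 | h0
        · exact Or.inl h0
        · right
          rw [Nat.add_assoc, ← hF D (by omega), ← hF (D + 2) (by omega), h0, Nat.add_assoc])
      (by intro h0; exact hD (by omega))
    rw [hDD] at this
    obtain ⟨t, ht, hne⟩ := this
    refine ⟨t, ht, ?_⟩
    have hpl : ∀ t, t < e + D + 1 + f → pl F i e D t =
        pl (U3 (F (i / 23)) (F (i / 23 + 1)) (F (i / 23 + 2))) (i % 23) e D t := by
      intro t ht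
      unfold pl col
      have g0 := hF 0 (by omega)
      have g1 := hF 1 (by omega)
      have gD := hF D (by omega)
      have gD1 := hF (D + 1) (by omega)
      simp only [Nat.add_zero] at g0
      split_ifs with c1 c2
      · rw [g0, g1]
      · have := hF (1 + (t - e)) (by omega)
        rw [← Nat.add_assoc, ← Nat.add_assoc] at this
        exact this
      · rw [← Nat.add_assoc] at gD1
        rw [← Nat.add_assoc] at gD1
        rw [gD1, gD]
    rw [hpl t (by omega), hpl (t + p) (by omega)]
    exact hne
  · by_contra hcon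
    push Not at hcon
    have hm : ∀ m < p - e - f, F (i + 1 + m) = F (i + 1 + p + m) := by
      intro m hm
      have h1 := hcon (e + m) (by omega)
      unfold pl at h1
      rw [if_neg (by omega), if_pos (by omega), if_neg (by omega), if_pos (by omega)] at h1
      have e1 : i + 1 + (e + m - e) = i + 1 + m := by omega
      have e2 : i + 1 + (e + m + p - e) = i + 1 + p + m := by omega
      rwa [e1, e2] at h1
    have h0 : p % 23 = 0 := sync (x := i + 1) (p := p) (fun m hm' => hm m (by omega))
    obtain ⟨q, rfl⟩ : ∃ q, p = 23 * q := ⟨p / 23, by omega⟩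
    have := descend (x := i + 1) (q := q) (M := 23 * q - e - f) (by omega) hm
    obtain ⟨t, ht, hne⟩ := sqfree q (by omega) ((i + 1) / 23)
    exact hne (this t ht)

end Pool.Agent.Helper814.Thue
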