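import Mathlib
import Pool.Agent.Helper814.Thue

set_option autoImplicit false

namespace Pool.Agent.Helper814.Thue

theorem F_pow (n : ℕ) : ∀ a t, t < 23 ^ n → F (23 ^ n * a + t) = (F a + F t) % 3 := by
  induction n with
  | zero =>
    intro a t ht
    have : t = 0 := by simpa using ht
    subst this
    have h0 : F 0 = 0 := by decide
    simp [h0, Nat.mod_eq_of_lt (F_lt a)]
  | succ n ih =>
    intro a t ht
    have e : 23 ^ (n + 1) * a + t = 23 * (23 ^ n * a) + t := by ring
    rw [e, F_rec, F_rec t]
    have h1 : (23 * (23 ^ n * a) + t) % 23 = t % 23 := by omega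
    have h2 : (23 * (23 ^ n * a) + t) / 23 = 23 ^ n * a + t / 23 := by omega
    rw [h1, h2, ih a (t / 23) (by rw [pow_succ] at ht; omega)]
    omega

/-- The periodic word. -/
def W (K m : ℕ) : ℕ := (F (m % K) + (if m / K % 2 = 0 then 2 else 1)) % 3

theorem W_lt (K m : ℕ) : W K m < 3 := Nat.mod_lt _ (by norm_num)

theorem W_period {K : ℕ} (hK : 0 < K) (m : ℕ) : W K (m + 2 * K) = W K m := by
  unfold W
  have h1 : (m + 2 * K) % K = m % K := by
    rw [show m + 2 * K = m + K * 2 by ring, Nat.add_mul_mod_self_left]
  have h2 : (m + 2 * K) / K = m / K + 2 := by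
    rw [show m + 2 * K = m + K * 2 by ring, Nat.add_mul_div_left _ _ hK]
  have h3 : (m / K + 2) % 2 = m / K % 2 := by omega
  rw [h1, h2, h3]

theorem W_window (n m0 : ℕ) : ∃ s, ∀ t ≤ 23 ^ n, W (23 ^ n) (m0 + t) = F (s + t) := by
  obtain ⟨K, hK⟩ : ∃ K, K = 23 ^ n := ⟨_, rfl⟩
  have hK0 : 0 < K := by rw [hK]; positivity
  have hF := F_pow n
  rw [← hK] at hF ⊢
  have hr := Nat.mod_lt m0 hK0
  have hm : K * (m0 / K) + m0 % K = m0 := Nat.div_add_mod m0 K
  have f4 : F 4 = 2 := by decide
  have f5 : F 5 = 1 := by decide
  have f6 : F 6 = 2 := by decide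
  have key : ∀ t ≤ K, (m0 % K + t < K ∧ (m0 + t) % K = m0 % K + t ∧ (m0 + t) / K = m0 / K) ∨
      (K ≤ m0 % K + t ∧ (m0 + t) % K = m0 % K + t - K ∧ (m0 + t) / K = m0 / K + 1) := by
    intro t ht
    rcases Nat.lt_or_ge (m0 % K + t) K with h | h
    · left
      have e : m0 + t = K * (m0 / K) + (m0 % K + t) := by omega
      refine ⟨h, ?_, ?_⟩
      · rw [e, Nat.mul_add_mod, Nat.mod_eq_of_lt h]
      · rw [e, Nat.mul_add_div hK0, Nat.div_eq_of_lt h, Nat.add_zero]
    · right
      have e : m0 + t = K * (m0 / K + 1) + (m0 % K + t - K) := by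
        rw [Nat.mul_add]; omega
      refine ⟨h, ?_, ?_⟩
      · rw [e, Nat.mul_add_mod, Nat.mod_eq_of_lt (by omega)]
      · have h5 : (m0 % K + t - K) / K = 0 := Nat.div_eq_of_lt (by omega)
        rw [e, Nat.mul_add_div hK0, h5]
  rcases Nat.mod_two_eq_zero_or_one (m0 / K) with hb | hb
  · refine ⟨K * 4 + m0 % K, ?_⟩
    intro t ht
    unfold W
    rcases key t ht with ⟨h1, h2, h3⟩ | ⟨h1, h2, h3⟩
    · rw [h2, h3, if_pos hb, Nat.add_assoc, hF 4 _ h1, f4, Nat.add_comm]
    · have e : K * 4 + m0 % K + t = K * 5 + (m0 % K + t - K) := by omega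
      rw [h2, h3, if_neg (by omega), e, hF 5 _ (by omega), f5, Nat.add_comm]
  · refine ⟨K * 5 + m0 % K, ?_⟩
    intro t ht
    unfold W
    rcases key t ht with ⟨h1, h2, h3⟩ | ⟨h1, h2, h3⟩
    · rw [h2, h3, if_neg (by omega), Nat.add_assoc, hF 5 _ h1, f5, Nat.add_comm]
    · have e : K * 5 + m0 % K + t = K * 6 + (m0 % K + t - K) := by omega
      rw [h2, h3, if_pos (by omega), e, hF 6 _ (by omega), f6, Nat.add_comm]

/-! ### the decorated path -/

abbrev Vx := ℕ × Fin 7

def pg : Fin 7 → Fin 7 := ![0, 0, 1, 1, 3, 3, 5]

def dp : Fin 7 → ℕ := ![0, 1, 2, 2, 3, 3, 4]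

def par (x : Vx) : Vx := if x.2 = 0 then (x.1 + 1, 0) else (x.1, pg x.2)

theorem dp_pg (g : Fin 7) : dp (pg g) = dp g - 1 := by revert g; decide

theorem dp_zero (g : Fin 7) : dp g = 0 ↔ g = 0 := by revert g; decide

theorem dp_le (g : Fin 7) : dp g ≤ 4 := by revert g; decide

theorem dp_iter (g : Fin 7) (a : ℕ) : dp (pg^[a] g) = dp g - a := by
  induction a with
  | zero => simp
  | succ a ih => rw [Function.iterate_succ_apply', dp_pg, ih]; omega

theorem pg_iter_zero {g : Fin 7} {a : ℕ} : pg^[a] g = 0 ↔ dp g ≤ a := by
  rw [← dp_zero, dp_iter]; omega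

theorem par_iter (i : ℕ) (g : Fin 7) (a : ℕ) :
    par^[a] (i, g) = (i + (a - dp g), pg^[a] g) := by
  induction a with
  | zero => simp
  | succ a ih =>
    rw [Function.iterate_succ_apply', ih, Function.iterate_succ_apply']
    unfold par
    rcases Nat.lt_or_ge a (dp g) with h | h
    · have h1 : pg^[a] g ≠ 0 := by rw [Ne, pg_iter_zero]; omega
      simp only [h1, if_false]
      have e1 : a - dp g = 0 := by omega
      have e2 : a + 1 - dp g = 0 := by omega
      rw [e1, e2]
    · have h1 : pg^[a] g = 0 := pg_iter_zero.2 h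
      simp only [h1, if_true]
      have e1 : pg 0 = 0 := rfl
      rw [e1]
      have e2 : i + (a - dp g) + 1 = i + (a + 1 - dp g) := by omega
      rw [e2]

theorem par_ne (x : Vx) : par x ≠ x := by
  obtain ⟨i, g⟩ := x
  unfold par
  by_cases h : g = 0
  · subst h; simp
  · simp only [h, if_false]
    intro h2
    have h3 : pg g = g := congrArg Prod.snd h2
    clear h2
    revert h h3
    revert g
    decide

/-- the decorated path -/
def DG : SimpleGraph Vx where
  Adj x y := par x = y ∨ par y = x
  symm := by constructor; intro x y h; exact h.symm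
  loopless := by
    constructor
    intro x h
    rcases h with h | h <;> exact par_ne x h

theorem updown (l : List Vx) (hl : l ≠ []) (hc : l.IsChain DG.Adj) (hn : l.Nodup) :
    ∃ x y a b, par^[a] x = par^[b] y ∧ l.length = a + b + 1 ∧
      ∀ t (ht : t < l.length), l[t] = if t < a then par^[t] x else par^[a + b - t] y := by
  induction l with
  | nil => exact absurd rfl hl
  | cons x l ih =>
    cases l with
    | nil =>
      refine ⟨x, x, 0, 0, rfl, rfl, ?_⟩
      intro t ht
      have : t = 0 := by simpa using ht
      subst this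
      simp
    | cons z l =>
      have hc' : (z :: l).IsChain DG.Adj := hc.of_cons
      have hn' : (z :: l).Nodup := hn.of_cons
      obtain ⟨z0, y, a, b, hm, hlen, hget⟩ := ih (by simp) hc' hn'
      have hadj : DG.Adj x z := hc.rel
      have h0 := hget 0 (by simp)
      simp only [List.getElem_cons_zero] at h0
      have hz : z = z0 := by
        rcases Nat.eq_zero_or_pos a with ha | ha
        · subst ha
          simp only [Nat.lt_irrefl, if_false, Nat.zero_add, Nat.sub_zero] at h0
          rw [h0, ← hm]; rfl
        · rw [if_pos ha] at h0; exact h0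
      subst hz
      rcases hadj with h | h
      · refine ⟨x, y, a + 1, b, ?_, ?_, ?_⟩
        · rw [Function.iterate_succ_apply, h, hm]
        · simp only [List.length_cons] at hlen ⊢; omega
        · intro t ht
          cases t with
          | zero => simp
          | succ t =>
            have := hget t (by simpa using ht)
            rw [List.getElem_cons_succ, this]
            rcases Nat.lt_or_ge t a with h1 | h1
            · rw [if_pos h1, if_pos (by omega), Function.iterate_succ_apply, h]
            · have e : a + 1 + b - (t + 1) = a + b - t := by omega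
              rw [if_neg (by omega), if_neg (by omega), e]
      · rcases Nat.eq_zero_or_pos a with ha | ha
        · subst ha
          simp only [Nat.lt_irrefl, if_false, Nat.zero_add, Nat.sub_zero] at h0
          refine ⟨x, y, 0, b + 1, ?_, ?_, ?_⟩
          · rw [Function.iterate_succ_apply', ← h0, h]; rfl
          · simp only [List.length_cons] at hlen ⊢; omega
          · intro t ht
            cases t with
            | zero =>
              simp only [List.getElem_cons_zero, Nat.lt_irrefl, if_false, Nat.zero_add, Nat.sub_zero]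
              rw [Function.iterate_succ_apply', ← h0, h]
            | succ t =>
              have := hget t (by simpa using ht)
              rw [List.getElem_cons_succ, this]
              have e : 0 + (b + 1) - (t + 1) = 0 + b - t := by omega
              rw [if_neg (by omega), if_neg (by omega), e]
        · exfalso
          have hx : x ∈ z :: l := by
            have h1 : 1 < (z :: l).length := by omega
            have := hget 1 h1
            have hx1 : (z :: l)[1] = x := by
              rw [this]
              split_ifs with h2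
              · simpa using h
              · have ha1 : a = 1 := by omega
                subst ha1
                have : 1 + b - 1 = b := by omega
                rw [this, ← hm]
                simpa using h
            rw [← hx1]
            exact List.getElem_mem h1
          exact (List.nodup_cons.1 hn).1 hx

/-- no vertex of the up part is repeated in the down part -/
theorem updown_ne {l : List Vx} (hn : l.Nodup) {x y : Vx} {a b : ℕ} (hlen : l.length = a + b + 1)
    (hget : ∀ t (ht : t < l.length), l[t] = if t < a then par^[t] x else par^[a + b - t] y)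
    {t s : ℕ} (ht : t < a) (hs : s ≤ b) : par^[t] x ≠ par^[s] y := by
  intro h
  have h1 := hget t (by omega)
  have h2 := hget (a + b - s) (by omega)
  rw [if_pos ht] at h1
  rw [if_neg (by omega)] at h2
  have e : a + b - (a + b - s) = s := by omega
  rw [e, ← h, ← h1] at h2
  have := (List.Nodup.getElem_inj_iff hn).1 h2
  omega


/-- The vertex is present: spine vertices always, gadget vertices only at non-turns of `W`. -/
def Ok (K : ℕ) (x : Vx) : Prop := x.2 = 0 ∨ W K x.1 = W K (x.1 + 2)

theorem col_lt (U : ℕ → ℕ) (i d : ℕ) : col U i d < 3 := Nat.mod_lt _ (by norm_num)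

/-- canonical colouring -/
def cc (K : ℕ) (x : Vx) : Fin 3 := ⟨col (W K) x.1 (dp x.2), col_lt _ _ _⟩

theorem col_zero (K i : ℕ) : col (W K) i 0 = W K (i + 1) := by
  unfold col
  rw [Nat.zero_mul, Nat.add_zero, Nat.mod_eq_of_lt (W_lt _ _)]

theorem W_ne (n m : ℕ) : W (23 ^ n) m ≠ W (23 ^ n) (m + 1) := by
  obtain ⟨s, hs⟩ := W_window n m
  have h0 := hs 0 (by positivity)
  have h1 := hs 1 (Nat.one_le_pow _ _ (by norm_num))
  rw [Nat.add_zero, Nat.add_zero] at h0
  rw [h0, h1]
  exact F_ne s

/-- inside one gadget -/
theorem fin_gadget' : ∀ a b m : Fin 5, 0 < m.val → a.val + b.val + 1 = 2 * m.val →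
    ∃ t : Fin 5, t.val < m.val ∧ (if t.val < a.val then a.val - t.val else t.val - a.val) % 3 ≠
      (if t.val + m.val < a.val then a.val - (t.val + m.val) else t.val + m.val - a.val) % 3 := by
  decide

theorem fin_gadget (a : ℕ) (ha : a ≤ 4) (b : ℕ) (hb : b ≤ 4) (m : ℕ) (hm : m ≤ 4) (hm0 : 0 < m)
    (h : a + b + 1 = 2 * m) :
    ∃ t < m, (if t < a then a - t else t - a) % 3 ≠
      (if t + m < a then a - (t + m) else t + m - a) % 3 := by
  obtain ⟨t, ht, hne⟩ := fin_gadget' ⟨a, by omega⟩ ⟨b, by omega⟩ ⟨m, by omega⟩ hm0 h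
  exact ⟨t.val, ht, hne⟩

theorem col_eq_iff {K i : ℕ} (h : W K i ≠ W K (i + 1)) {d d' : ℕ}
    (hd : col (W K) i d = col (W K) i d') : d % 3 = d' % 3 := by
  unfold col at hd
  have a0 := W_lt K i
  have a1 := W_lt K (i + 1)
  obtain ⟨u, hu⟩ : ∃ u, u = W K i := ⟨_, rfl⟩
  obtain ⟨v, hv⟩ : ∃ v, v = W K (i + 1) := ⟨_, rfl⟩
  rw [← hu, ← hv] at hd h
  rw [← hu] at a0
  rw [← hv] at a1
  have key : ∀ u v x y : Fin 3, u.val ≠ v.val →
      (v.val + x.val * (u.val + 2 * v.val)) % 3 = (v.val + y.val * (u.val + 2 * v.val)) % 3 →
      x.val = y.val := by decide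
  apply key ⟨u, a0⟩ ⟨v, a1⟩ ⟨d % 3, Nat.mod_lt _ (by norm_num)⟩ ⟨d' % 3, Nat.mod_lt _ (by norm_num)⟩ h
  show (v + d % 3 * (u + 2 * v)) % 3 = (v + d' % 3 * (u + 2 * v)) % 3
  have e1 : (v + d % 3 * (u + 2 * v)) % 3 = (v + d * (u + 2 * v)) % 3 := by
    simp [Nat.add_mod, Nat.mul_mod]
  have e2 : (v + d' % 3 * (u + 2 * v)) % 3 = (v + d' * (u + 2 * v)) % 3 := by
    simp [Nat.add_mod, Nat.mul_mod]
  rw [e1, e2, hd]

/-- Short paths are coloured without repetition (first case: the head is not to the right of the
last vertex). -/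
theorem short_le (n : ℕ) (l : List Vx) (hl : l ≠ []) (hc : l.IsChain DG.Adj) (hn : l.Nodup)
    (hok : ∀ x ∈ l, Ok (23 ^ n) x) (hlen : l.length + 2 ≤ 23 ^ n) (p : ℕ) (hp : 0 < p)
    (h2p : l.length = 2 * p)
    (hle : (l.head hl).1 ≤ (l.getLast hl).1) :
    ∃ t, ∃ ht : t < p, cc (23 ^ n) (l[t]'(by omega)) ≠ cc (23 ^ n) (l[t + p]'(by omega)) := by
  obtain ⟨K, hK⟩ : ∃ K, K = 23 ^ n := ⟨_, rfl⟩
  have hwin := W_window n
  have hWne := W_ne n
  rw [← hK] at hok hlen hwin hWne ⊢
  obtain ⟨x, y, a, b, hm, hl2, hget⟩ := updown l hl hc hn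
  have hdiff : ∀ {t s : ℕ}, t < a → s ≤ b → par^[t] x ≠ par^[s] y :=
    fun ht hs => updown_ne hn hl2 hget ht hs
  have hhead : l.head hl = x := by
    rw [List.head_eq_getElem, hget 0 (by omega)]
    split_ifs with h
    · rfl
    · have : a = 0 := by omega
      subst this
      rw [Nat.zero_add, Nat.sub_zero, ← hm]; rfl
  have hlast : l.getLast hl = y := by
    rw [List.getLast_eq_getElem, hget _ (by omega), if_neg (by omega)]
    have : a + b - (l.length - 1) = 0 := by omega
    rw [this]; rfl
  have hxmem : x ∈ l := by rw [← hhead]; exact List.head_mem hl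
  have hymem : y ∈ l := by rw [← hlast]; exact List.getLast_mem hl
  rw [hhead, hlast] at hle
  have hxok := hok x hxmem
  have hyok := hok y hymem
  obtain ⟨i, g⟩ := x
  obtain ⟨j, h⟩ := y
  simp only at hle
  have hg4 := dp_le g
  have hh4 := dp_le h
  rw [par_iter, par_iter, Prod.mk.injEq] at hm
  obtain ⟨hm1, hm2⟩ := hm
  have hdp : dp g - a = dp h - b := by
    rw [← dp_iter, ← dp_iter, hm2]
  have hnotboth : ¬ (dp g < a ∧ dp h < b) := by
    rintro ⟨h1, h2⟩
    apply hdiff (t := a - 1) (s := b - 1) (by omega) (by omega)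
    rw [par_iter, par_iter, Prod.mk.injEq]
    refine ⟨by omega, ?_⟩
    rw [pg_iter_zero.2 (by omega), pg_iter_zero.2 (by omega)]
  rcases Nat.eq_or_lt_of_le hle with hij | hij
  · -- same gadget
    subst hij
    have ha : a ≤ dp g := by omega
    have hb : b ≤ dp h := by omega
    obtain ⟨t, ht, hne⟩ := fin_gadget a (by omega) b (by omega) p (by omega) hp (by omega)
    refine ⟨t, ht, ?_⟩
    have hcol : ∀ t (ht : t < l.length), cc K (l[t]) =
        ⟨col (W K) i (dp g - a + if t < a then a - t else t - a), col_lt _ _ _⟩ := by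
      intro t ht
      unfold cc
      rw [Fin.mk.injEq, hget t ht]
      split_ifs with h1
      · rw [par_iter]
        simp only [dp_iter]
        have e1 : i + (t - dp g) = i := by omega
        have e2 : dp g - t = dp g - a + (a - t) := by omega
        rw [e1, e2]
      · rw [par_iter]
        simp only [dp_iter]
        have e1 : i + (a + b - t - dp h) = i := by omega
        have e2 : dp h - (a + b - t) = dp g - a + (t - a) := by omega
        rw [e1, e2]
    intro heq
    rw [hcol _ (by omega), hcol _ (by omega), Fin.mk.injEq] at heq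
    have := col_eq_iff (hWne i) heq
    omega
  · -- different gadgets
    have hb : b = dp h := by omega
    have ha : a = dp g + (j - i) := by omega
    obtain ⟨s, hs⟩ := hwin i
    have hsW : ∀ t ≤ K, W K (i + t) = F (s + t) := hs
    have hze : dp g = 0 ∨ F s = F (s + 2) := by
      rcases hxok with h0 | h0
      · left; simp only at h0; rw [h0]; rfl
      · right
        simp only at h0
        have e0 := hsW 0 (by omega)
        have e2 := hsW 2 (by omega)
        rw [Nat.add_zero, Nat.add_zero] at e0
        rw [← e0, ← e2, h0]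
    have hzf : dp h = 0 ∨ F (s + (j - i)) = F (s + (j - i) + 2) := by
      rcases hyok with h0 | h0
      · left; simp only at h0; rw [h0]; rfl
      · right
        simp only at h0
        have e0 := hsW (j - i) (by omega)
        have e2 := hsW (j - i + 2) (by omega)
        have e3 : i + (j - i) = j := by omega
        have e4 : i + (j - i + 2) = j + 2 := by omega
        rw [e3] at e0
        rw [e4] at e2
        rw [Nat.add_assoc, ← e0, ← e2, h0]
    obtain ⟨t, ht, hne⟩ := nice (i := s) (e := dp g) (D := j - i) (f := dp h) (p := p) hg4 hh4 hp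
      (by omega) hze hzf (by omega)
    refine ⟨t, ht, ?_⟩
    have hcol : ∀ t (ht : t < l.length), (cc K (l[t])).val = pl F s (dp g) (j - i) t := by
      intro t ht
      unfold cc
      simp only
      rw [hget t ht]
      unfold pl
      rcases Nat.lt_or_ge t a with h1 | h1
      · rw [if_pos h1, par_iter]
        simp only [dp_iter]
        rcases Nat.lt_or_ge t (dp g) with h2 | h2
        · rw [if_pos h2]
          have e1 : i + (t - dp g) = i := by omega
          rw [e1]
          unfold col
          have e0 := hsW 0 (by omega)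
          have e2 := hsW 1 (by omega)
          rw [Nat.add_zero, Nat.add_zero] at e0
          rw [e0, e2]
        · rw [if_neg (by omega), if_pos (by omega)]
          have e1 : dp g - t = 0 := by omega
          rw [e1, col_zero]
          have e2 := hsW (1 + (t - dp g)) (by omega)
          rw [← Nat.add_assoc] at e2
          have e3 : i + (t - dp g) + 1 = i + 1 + (t - dp g) := by omega
          rw [e3, e2, ← Nat.add_assoc]
      · rw [if_neg (by omega), par_iter]
        simp only [dp_iter]
        have e1 : j + (a + b - t - dp h) = j := by omega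
        have e2 : dp h - (a + b - t) = t - dp g - (j - i) := by omega
        rw [e1, e2, if_neg (by omega)]
        split_ifs with h3
        · have e3 : t - dp g - (j - i) = 0 := by omega
          rw [e3, col_zero]
          have e4 := hsW (j - i + 1) (by omega)
          have e5 : i + (j - i + 1) = j + 1 := by omega
          rw [e5] at e4
          rw [e4]
          congr 1
          omega
        · unfold col
          have e4 := hsW (j - i) (by omega)
          have e5 := hsW (j - i + 1) (by omega)
          have e6 : i + (j - i) = j := by omega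
          have e7 : i + (j - i + 1) = j + 1 := by omega
          rw [e6] at e4
          rw [e7] at e5
          rw [e4, e5, ← Nat.add_assoc]
    intro heq
    have h1 := hcol t (by omega)
    have h2 := hcol (t + p) (by omega)
    rw [heq, h2] at h1
    exact hne h1.symm

end Pool.Agent.Helper814.Thue
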