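import Mathlib
import Pool.Agent.Helper814.ThueTree

set_option autoImplicit false

namespace Pool.Agent.Helper814.Thue

/-- nonrepetitive colouring of the subgraph of the decorated path induced on `S` -/
def NRS {k : ℕ} (S : Finset Vx) (c : Vx → Fin k) : Prop :=
  ∀ l : List Vx, (∀ x ∈ l, x ∈ S) → l.IsChain DG.Adj → l.Nodup →
    ∀ n : ℕ, 0 < n → l.length = 2 * n → (l.map c).take n ≠ (l.map c).drop n

theorem sq_getElem {k : ℕ} {l : List Vx} {c : Vx → Fin k} {n : ℕ} (hlen : l.length = 2 * n)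
    (h : (l.map c).take n = (l.map c).drop n) :
    ∀ t (ht : t < n), c (l[t]'(by omega)) = c (l[t + n]'(by omega)) := by
  intro t ht
  have h1 : ((l.map c).take n)[t]? = ((l.map c).drop n)[t]? := by rw [h]
  rw [List.getElem?_take_of_lt ht, List.getElem?_drop, List.getElem?_map, List.getElem?_map,
    List.getElem?_eq_getElem (by omega), List.getElem?_eq_getElem (by omega)] at h1
  simp only [Option.map_some, Option.some.injEq] at h1
  rw [h1]
  congr 2
  omega

theorem sq_of_getElem {k : ℕ} {l : List Vx} {c : Vx → Fin k} {n : ℕ} (hlen : l.length = 2 * n)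
    (h : ∀ t (ht : t < n), c (l[t]'(by omega)) = c (l[t + n]'(by omega))) :
    (l.map c).take n = (l.map c).drop n := by
  apply List.ext_getElem
  · simp; omega
  · intro t h1 h2
    simp only [List.getElem_take, List.getElem_drop, List.getElem_map]
    have ht : t < n := by simp at h1; omega
    rw [h t ht]
    congr 2
    omega

theorem short_nrs (n : ℕ) (S : Finset Vx) (hok : ∀ x ∈ S, Ok (23 ^ n) x)
    (hcard : S.card + 2 ≤ 23 ^ n) : NRS S (cc (23 ^ n)) := by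
  intro l hlS hc hn p hp h2p hsq
  have hl : l ≠ [] := by
    intro h; subst h; simp at h2p; omega
  have hlen : l.length + 2 ≤ 23 ^ n := by
    have : l.length ≤ S.card := by
      rw [← List.toFinset_card_of_nodup hn]
      apply Finset.card_le_card
      intro x hx
      exact hlS x (by simpa using hx)
    omega
  have hsq' := sq_getElem h2p hsq
  rcases Nat.le_total (l.head hl).1 (l.getLast hl).1 with h | h
  · obtain ⟨t, ht, hne⟩ := short_le n l hl hc hn (fun x hx => hok x (hlS x hx)) hlen p hp h2p h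
    exact hne (hsq' t ht)
  · have hrl : l.reverse ≠ [] := by simpa using hl
    obtain ⟨t, ht, hne⟩ := short_le n l.reverse hrl
      (by
        rw [List.isChain_reverse]
        exact hc.imp (fun x y h => SimpleGraph.Adj.symm h)) (List.nodup_reverse.2 hn)
      (fun x hx => hok x (hlS x (by simpa using hx))) (by simpa using hlen) p hp
      (by simpa using h2p) (by
        rw [List.head_reverse, List.getLast_reverse]; exact h)
    apply hne
    simp only [List.getElem_reverse]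
    have h1 := hsq' (p - 1 - t) (by omega)
    have e1 : l.length - 1 - t = p - 1 - t + p := by omega
    have e2 : l.length - 1 - (t + p) = p - 1 - t := by omega
    simp only [e1, e2]
    exact h1.symm

/-! ### non-colourability -/

section noncol

variable {K L : ℕ} {c : Vx → Fin 3}

/-- the vertex set of the long decorated path -/
def S0 (K L : ℕ) : Finset Vx :=
  ((Finset.range L) ×ˢ (Finset.univ : Finset (Fin 7))).filter
    (fun x => x.2 = 0 ∨ W K x.1 = W K (x.1 + 2))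

theorem mem_S0 {K L : ℕ} {x : Vx} : x ∈ S0 K L ↔ x.1 < L ∧ Ok K x := by
  unfold S0 Ok
  simp

theorem spine_adj (i : ℕ) : DG.Adj (i, 0) (i + 1, 0) := Or.inl rfl

theorem gad_adj (i : ℕ) {g : Fin 7} (hg : g ≠ 0) : DG.Adj (i, g) (i, pg g) := by
  left
  unfold par
  simp [hg]

theorem nr_spine (h : NRS (S0 K L) c) (i n : ℕ) (hn : 0 < n) (hL : i + 2 * n ≤ L) :
    ∃ t < n, c (i + t, 0) ≠ c (i + t + n, 0) := by
  by_contra hcon
  push Not at hcon
  have hlen : ((List.range (2 * n)).map (fun t => ((i + t, 0) : Vx))).length = 2 * n := by simp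
  refine h ((List.range (2 * n)).map (fun t => ((i + t, 0) : Vx))) ?_ ?_ ?_ n hn hlen ?_
  · intro x hx
    simp only [List.mem_map, List.mem_range] at hx
    obtain ⟨t, ht, rfl⟩ := hx
    exact mem_S0.2 ⟨by simp only; omega, Or.inl rfl⟩
  · rw [List.isChain_iff_getElem]
    intro t ht
    simp only [List.getElem_map, List.getElem_range]
    exact spine_adj (i + t)
  · apply List.Nodup.map _ List.nodup_range
    intro a b hab
    simpa using hab
  · apply sq_of_getElem hlen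
    intro t ht
    simp only [List.getElem_map, List.getElem_range]
    rw [← Nat.add_assoc]
    exact hcon t ht

theorem nr2 (h : NRS (S0 K L) c) {x y : Vx} (hx : x ∈ S0 K L) (hy : y ∈ S0 K L)
    (hxy : DG.Adj x y) : c x ≠ c y := by
  intro heq
  refine h [x, y] (by simp [hx, hy]) (by simp [hxy]) (by simp [hxy.ne]) 1 (by norm_num) rfl ?_
  simp [heq]

theorem nr4 (h : NRS (S0 K L) c) {x y z w : Vx} (hmem : ∀ v ∈ [x, y, z, w], v ∈ S0 K L)
    (h1 : DG.Adj x y) (h2 : DG.Adj y z) (h3 : DG.Adj z w) (hnd : [x, y, z, w].Nodup) :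
    ¬ (c x = c z ∧ c y = c w) := by
  rintro ⟨e1, e2⟩
  refine h [x, y, z, w] hmem (by simp [h1, h2, h3]) hnd 2 (by norm_num) rfl ?_
  simp [e1, e2]

theorem nr6 (h : NRS (S0 K L) c) {x y z w u v : Vx} (hmem : ∀ r ∈ [x, y, z, w, u, v], r ∈ S0 K L)
    (h1 : DG.Adj x y) (h2 : DG.Adj y z) (h3 : DG.Adj z w) (h4 : DG.Adj w u) (h5 : DG.Adj u v)
    (hnd : [x, y, z, w, u, v].Nodup) :
    ¬ (c x = c w ∧ c y = c u ∧ c z = c v) := by
  rintro ⟨e1, e2, e3⟩
  refine h [x, y, z, w, u, v] hmem (by simp [h1, h2, h3, h4, h5]) hnd 3 (by norm_num) rfl ?_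
  simp [e1, e2, e3]

theorem fin_key (a b c d : Fin 3) (hab : a ≠ b) (hac : a ≠ c) (hbc : b ≠ c) (hda : d ≠ a)
    (hdb : d ≠ b) : d = c := by
  rw [Ne, Fin.ext_iff] at hab hac hbc hda hdb
  rw [Fin.ext_iff]
  omega

theorem gadget_fin (l v : Fin 3) (hlv : l ≠ v) (r : Fin 3) (hvr : v ≠ r) (hlr : l ≠ r)
    (u : Fin 3) (huv : u ≠ v) (u' : Fin 3) (hu'u : u' ≠ u)
    (h1 : ¬ (u' = v ∧ u = l)) (h2 : ¬ (u' = v ∧ u = r))
    (x : Fin 3) (hxu : x ≠ u) (h3 : ¬ (x = v ∧ u = l)) (h4 : ¬ (x = v ∧ u = r))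
    (x' : Fin 3) (hx'x : x' ≠ x) (h5 : ¬ (x' = u ∧ x = u'))
    (y : Fin 3) (hyx : y ≠ x) (h6 : ¬ (y = u ∧ x = u'))
    (y' : Fin 3) (hy'y : y' ≠ y) (h7 : ¬ (y' = x ∧ y = x')) (h8 : ¬ (y' = u ∧ y = v ∧ x = r))
    (h9 : ¬ (y' = u ∧ y = v ∧ x = l)) : False := by
  have hu : u = l ∨ u = r := by
    by_contra hcon
    push Not at hcon
    exact hcon.2 (fin_key l v r u hlv hlr hvr hcon.1 huv)
  rcases hu with hu | hu
  · rw [hu] at hu'u h1 hxu h3 h5 h6 h8
    have e1 : u' = r := fin_key l v r u' hlv hlr hvr hu'u (fun h => h1 ⟨h, rfl⟩)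
    have e2 : x = r := fin_key l v r x hlv hlr hvr hxu (fun h => h3 ⟨h, rfl⟩)
    rw [e1, e2] at h5 h6
    rw [e2] at hx'x hyx h7 h8
    have e3 : x' = v := fin_key l r v x' hlr hlv hvr.symm (fun h => h5 ⟨h, rfl⟩) hx'x
    have e4 : y = v := fin_key l r v y hlr hlv hvr.symm (fun h => h6 ⟨h, rfl⟩) hyx
    rw [e4] at hy'y h7 h8
    rw [e3] at h7
    have e5 : y' = l := fin_key r v l y' hvr.symm hlr.symm hlv.symm (fun h => h7 ⟨h, rfl⟩) hy'y
    exact h8 ⟨e5, rfl, rfl⟩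
  · rw [hu] at hu'u h2 hxu h4 h5 h6 h9
    have e1 : u' = l := fin_key r v l u' hvr.symm hlr.symm hlv.symm hu'u (fun h => h2 ⟨h, rfl⟩)
    have e2 : x = l := fin_key r v l x hvr.symm hlr.symm hlv.symm hxu (fun h => h4 ⟨h, rfl⟩)
    rw [e1, e2] at h5 h6
    rw [e2] at hx'x hyx h7 h9
    have e3 : x' = v := fin_key r l v x' hlr.symm hvr.symm hlv (fun h => h5 ⟨h, rfl⟩) hx'x
    have e4 : y = v := fin_key r l v y hlr.symm hvr.symm hlv (fun h => h6 ⟨h, rfl⟩) hyx
    rw [e4] at hy'y h7 h9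
    rw [e3] at h7
    have e5 : y' = r := fin_key l v r y' hlv hlr hvr (fun h => h7 ⟨h, rfl⟩) hy'y
    exact h9 ⟨e5, rfl, rfl⟩

theorem gadget_force (h : NRS (S0 K L) c) {i : ℕ} (hi : W K (i + 1) = W K (i + 3))
    (hL : i + 2 < L) : c (i, 0) = c (i + 2, 0) := by
  by_contra hne
  have ml : ((i, 0) : Vx) ∈ S0 K L := mem_S0.2 ⟨by simp only; omega, Or.inl rfl⟩
  have mr : ((i + 2, 0) : Vx) ∈ S0 K L := mem_S0.2 ⟨by simp only; omega, Or.inl rfl⟩
  have mg : ∀ g, ((i + 1, g) : Vx) ∈ S0 K L :=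
    fun g => mem_S0.2 ⟨by simp only; omega, Or.inr hi⟩
  have alv : DG.Adj (i, 0) (i + 1, 0) := spine_adj i
  have avr : DG.Adj (i + 1, 0) (i + 2, 0) := spine_adj (i + 1)
  have auv : DG.Adj (i + 1, 1) (i + 1, 0) := gad_adj (i + 1) (g := 1) (by decide)
  have au'u : DG.Adj (i + 1, 2) (i + 1, 1) := gad_adj (i + 1) (g := 2) (by decide)
  have axu : DG.Adj (i + 1, 3) (i + 1, 1) := gad_adj (i + 1) (g := 3) (by decide)
  have ax'x : DG.Adj (i + 1, 4) (i + 1, 3) := gad_adj (i + 1) (g := 4) (by decide)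
  have ayx : DG.Adj (i + 1, 5) (i + 1, 3) := gad_adj (i + 1) (g := 5) (by decide)
  have ay'y : DG.Adj (i + 1, 6) (i + 1, 5) := gad_adj (i + 1) (g := 6) (by decide)
  refine gadget_fin (c (i, 0)) (c (i + 1, 0)) (nr2 h ml (mg 0) alv) (c (i + 2, 0))
    (nr2 h (mg 0) mr avr) hne (c (i + 1, 1)) (nr2 h (mg 1) (mg 0) auv)
    (c (i + 1, 2)) (nr2 h (mg 2) (mg 1) au'u)
    (nr4 h ?_ au'u auv alv.symm ?_) (nr4 h ?_ au'u auv avr ?_)
    (c (i + 1, 3)) (nr2 h (mg 3) (mg 1) axu)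
    (nr4 h ?_ axu auv alv.symm ?_) (nr4 h ?_ axu auv avr ?_)
    (c (i + 1, 4)) (nr2 h (mg 4) (mg 3) ax'x)
    (nr4 h ?_ ax'x axu au'u.symm ?_)
    (c (i + 1, 5)) (nr2 h (mg 5) (mg 3) ayx)
    (nr4 h ?_ ayx axu au'u.symm ?_)
    (c (i + 1, 6)) (nr2 h (mg 6) (mg 5) ay'y)
    (nr4 h ?_ ay'y ayx ax'x.symm ?_)
    (nr6 h ?_ ay'y ayx axu auv avr ?_)
    (nr6 h ?_ ay'y ayx axu auv alv.symm ?_)
  all_goals simp [ml, mr, mg]

theorem spine_ne (h : NRS (S0 K L) c) {i : ℕ} (hL : i + 1 < L) : c (i, 0) ≠ c (i + 1, 0) := by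
  obtain ⟨t, ht, hne⟩ := nr_spine h i 1 (by norm_num) (by omega)
  have : t = 0 := by omega
  subst this
  simpa using hne

theorem spine4 (h : NRS (S0 K L) c) {i : ℕ} (hL : i + 3 < L) (h1 : c (i, 0) = c (i + 2, 0)) :
    c (i + 1, 0) ≠ c (i + 3, 0) := by
  intro h2
  obtain ⟨t, ht, hne⟩ := nr_spine h i 2 (by norm_num) (by omega)
  interval_cases t
  · exact hne h1
  · exact hne h2

theorem spine8 (h : NRS (S0 K L) c) {i : ℕ} (hL : i + 7 < L) (h0 : c (i, 0) = c (i + 4, 0))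
    (h1 : c (i + 1, 0) = c (i + 5, 0)) (h2 : c (i + 2, 0) = c (i + 6, 0)) :
    c (i + 3, 0) ≠ c (i + 7, 0) := by
  intro h3
  obtain ⟨t, ht, hne⟩ := nr_spine h i 4 (by norm_num) (by omega)
  interval_cases t
  · exact hne h0
  · exact hne h1
  · exact hne h2
  · exact hne h3

/-- three consecutive turns are surrounded by non-turns -/
theorem W_no6 (n : ℕ) (hn : 1 ≤ n) (m : ℕ) :
    ¬ (W (23 ^ n) m = W (23 ^ n) (m + 3) ∧ W (23 ^ n) (m + 1) = W (23 ^ n) (m + 4) ∧
      W (23 ^ n) (m + 2) = W (23 ^ n) (m + 5)) := by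
  rintro ⟨h1, h2, h3⟩
  have h23 : 23 ≤ 23 ^ n := by
    calc 23 = 23 ^ 1 := by norm_num
      _ ≤ 23 ^ n := Nat.pow_le_pow_right (by norm_num) hn
  obtain ⟨s, hs⟩ := W_window n m
  have e0 := hs 0 (by omega)
  have e1 := hs 1 (by omega)
  have e2 := hs 2 (by omega)
  have e3 := hs 3 (by omega)
  have e4 := hs 4 (by omega)
  have e5 := hs 5 (by omega)
  rw [Nat.add_zero, Nat.add_zero] at e0
  rw [e0, e3] at h1
  rw [e1, e4] at h2
  rw [e2, e5] at h3
  obtain ⟨t, ht, hne⟩ := sqfree 3 (by norm_num) s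
  interval_cases t
  · exact hne h1
  · exact hne h2
  · exact hne h3

theorem turn {n : ℕ} (hn : 1 ≤ n) (h : NRS (S0 (23 ^ n) L) c) {j : ℕ} (hL : j + 7 < L)
    (hW : W (23 ^ n) (j + 3) ≠ W (23 ^ n) (j + 5)) : c (j + 2, 0) ≠ c (j + 4, 0) := by
  intro heq
  have w1 := W_lt (23 ^ n) (j + 1)
  have w2 := W_lt (23 ^ n) (j + 2)
  have w3 := W_lt (23 ^ n) (j + 3)
  have w4 := W_lt (23 ^ n) (j + 4)
  have w5 := W_lt (23 ^ n) (j + 5)
  have w6 := W_lt (23 ^ n) (j + 6)
  have w7 := W_lt (23 ^ n) (j + 7)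
  have n1 := W_ne n (j + 1)
  have n2 := W_ne n (j + 2)
  have n3 := W_ne n (j + 3)
  have n4 := W_ne n (j + 4)
  have n5 := W_ne n (j + 5)
  have n6 := W_ne n (j + 6)
  have s1 := W_no6 n hn (j + 1)
  have s2 := W_no6 n hn (j + 2)
  by_cases hA : W (23 ^ n) (j + 4) = W (23 ^ n) (j + 6)
  · have := gadget_force h (i := j + 3) hA (by omega)
    exact spine4 h (i := j + 2) (by omega) heq this
  by_cases hB : W (23 ^ n) (j + 2) = W (23 ^ n) (j + 4)
  · have := gadget_force h (i := j + 1) hB (by omega)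
    exact spine4 h (i := j + 1) (by omega) this heq
  have hC : W (23 ^ n) (j + 1) = W (23 ^ n) (j + 3) := by
    clear h heq hL
    simp only [Nat.add_assoc] at *
    norm_num at *
    omega
  have hD : W (23 ^ n) (j + 5) = W (23 ^ n) (j + 7) := by
    clear h heq hL
    simp only [Nat.add_assoc] at *
    norm_num at *
    omega
  have g1 : c (j, 0) = c (j + 2, 0) := gadget_force h (i := j) hC (by omega)
  have g2 : c (j + 4, 0) = c (j + 6, 0) := gadget_force h (i := j + 4) hD (by omega)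
  have a0 := spine_ne h (i := j) (by omega)
  have a1 := spine_ne h (i := j + 1) (by omega)
  have a2 := spine_ne h (i := j + 2) (by omega)
  have a3 := spine_ne h (i := j + 3) (by omega)
  have a4 := spine_ne h (i := j + 4) (by omega)
  have a5 := spine_ne h (i := j + 5) (by omega)
  have a6 := spine_ne h (i := j + 6) (by omega)
  have b0 := spine4 h (i := j) (by omega) g1
  have b1 := spine4 h (i := j + 2) (by omega) heq
  have b2 := spine4 h (i := j + 4) (by omega) g2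
  have c1 : c (j + 1, 0) = c (j + 5, 0) :=
    fin_key (c (j + 2, 0)) (c (j + 3, 0)) _ _ a2 (by rw [heq]; exact a4) b1 a1 b0
  have c2 : c (j + 3, 0) = c (j + 7, 0) :=
    fin_key (c (j + 6, 0)) (c (j + 5, 0)) _ _ a5.symm a6 b2 (by rw [← g2]; exact a3) b1
  exact spine8 h (i := j) (by omega) (g1.trans heq) c1 (heq.trans g2) c2

theorem exists_tau {v0 v1 : ℕ} (hv : v0 ≠ v1) {b0 b1 : Fin 3} (hb : b0 ≠ b1) :
    ∃ τ : ℕ → Fin 3, (∀ x y, x < 3 → y < 3 → v0 < 3 → v1 < 3 → x ≠ y → τ x ≠ τ y) ∧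
      τ v0 = b0 ∧ τ v1 = b1 := by
  obtain ⟨z, hz0, hz1⟩ : ∃ z : Fin 3, z ≠ b0 ∧ z ≠ b1 := by
    revert hb
    revert b0 b1
    decide
  refine ⟨fun x => if x = v0 then b0 else if x = v1 then b1 else z, ?_, by simp, by simp [hv.symm]⟩
  intro x y hx hy h0 h1 hxy
  simp only
  split_ifs with h1 h2 h3 h4 h5 h6 h7
  · omega
  · exact hb
  · exact hz0.symm
  · exact hb.symm
  · omega
  · exact hz1.symm
  · exact hz0
  · exact hz1
  · omega

/-- The long decorated path has no nonrepetitive 3-colouring. -/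
theorem not_nrs (n : ℕ) (hn : 1 ≤ n) (c : Vx → Fin 3) :
    ¬ NRS (S0 (23 ^ n) (4 * 23 ^ n + 10)) c := by
  intro h
  obtain ⟨K, hK⟩ : ∃ K, K = 23 ^ n := ⟨_, rfl⟩
  have hK0 : 0 < K := by rw [hK]; positivity
  have hWne := W_ne n
  have hturn : ∀ {j : ℕ}, j + 7 < 4 * 23 ^ n + 10 →
    W (23 ^ n) (j + 3) ≠ W (23 ^ n) (j + 5) → c (j + 2, 0) ≠ c (j + 4, 0) :=
    fun h1 h2 => turn hn h h1 h2
  rw [← hK] at h hWne hturn
  obtain ⟨τ, hτ, ht0, ht1⟩ := exists_tau (hWne 3) (spine_ne h (i := 2) (by omega))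
  have hτ' : ∀ x y, x < 3 → y < 3 → x ≠ y → τ x ≠ τ y :=
    fun x y hx hy hxy => hτ x y hx hy (W_lt _ _) (W_lt _ _) hxy
  have key : ∀ j, j < 4 * K + 1 → c (j + 2, 0) = τ (W K (j + 3)) ∧ c (j + 3, 0) = τ (W K (j + 4)) := by
    intro j
    induction j with
    | zero =>
      intro _
      exact ⟨ht0.symm, ht1.symm⟩
    | succ j ih =>
      intro hj
      obtain ⟨i1, i2⟩ := ih (by omega)
      have e1 : j + 1 + 2 = j + 3 := by omega
      have e2 : j + 1 + 3 = j + 4 := by omega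
      have e3 : j + 1 + 4 = j + 5 := by omega
      rw [e1, e2, e3]
      refine ⟨i2, ?_⟩
      by_cases hW : W K (j + 3) = W K (j + 5)
      · have := gadget_force h (i := j + 2) hW (by omega)
        rw [← hW, ← i1]
        exact this.symm
      · have h1 := hturn (j := j) (by omega) hW
        have h2 := spine_ne h (i := j + 3) (by omega)
        have h3 : W K (j + 3) ≠ W K (j + 4) := hWne (j + 3)
        have h4 : W K (j + 4) ≠ W K (j + 5) := hWne (j + 4)
        refine fin_key (τ (W K (j + 3))) (τ (W K (j + 4))) _ _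
          (hτ' _ _ (W_lt _ _) (W_lt _ _) h3) (hτ' _ _ (W_lt _ _) (W_lt _ _) hW)
          (hτ' _ _ (W_lt _ _) (W_lt _ _) h4) ?_ ?_
        · rw [← i1]; exact h1.symm
        · rw [← i2]; exact h2.symm
  obtain ⟨t, ht, hne⟩ := nr_spine h 2 (2 * K) (by omega) (by omega)
  apply hne
  have k1 := (key t (by omega)).1
  have k2 := (key (t + 2 * K) (by omega)).1
  have e1 : 2 + t = t + 2 := by omega
  have e2 : t + 2 + 2 * K = t + 2 * K + 2 := by omega
  have e3 : t + 2 * K + 3 = t + 3 + 2 * K := by omega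
  rw [e1, e2, k1, k2, e3, W_period hK0]

end noncol

end Pool.Agent.Helper814.Thue
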