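import Mathlib
import Pool.Agent.Helper814.ThueNon

set_option autoImplicit false

namespace Pool.Agent.Helper814.Thue

theorem updown' (l : List Vx) (hl : l ≠ []) (hc : l.IsChain DG.Adj) (hn : l.Nodup) :
    ∃ a b, par^[a] (l.head hl) = par^[b] (l.getLast hl) ∧ l.length = a + b + 1 ∧
      ∀ t (ht : t < l.length),
        l[t] = if t < a then par^[t] (l.head hl) else par^[a + b - t] (l.getLast hl) := by
  obtain ⟨x, y, a, b, hm, hl2, hget⟩ := updown l hl hc hn
  have hhead : l.head hl = x := by
    rw [List.head_eq_getElem, hget 0 (by omega)]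
    split_ifs with h
    · rfl
    · have : a = 0 := by omega
      subst this
      rw [Nat.zero_add, Nat.sub_zero, ← hm]; rfl
  have hlast : l.getLast hl = y := by
    rw [List.getLast_eq_getElem, hget _ (by omega), if_neg (by omega)]
    have : a + b - (l.length - 1) = 0 := by omega
    rw [this]; rfl
  rw [hhead, hlast]
  exact ⟨a, b, hm, hl2, hget⟩

/-- level -/
def lv (x : Vx) : ℤ := (x.1 : ℤ) - dp x.2

theorem lv_par (x : Vx) : lv (par x) = lv x + 1 := by
  obtain ⟨i, g⟩ := x
  unfold lv par
  by_cases h : g = 0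
  · subst h
    simp only [if_true]
    push_cast
    ring
  · simp only [h, if_false]
    have h1 := dp_pg g
    have h2 : dp g ≠ 0 := by rw [Ne, dp_zero]; exact h
    rw [h1]
    omega

theorem lv_iter (x : Vx) (a : ℕ) : lv (par^[a] x) = lv x + a := by
  induction a with
  | zero => simp
  | succ a ih => rw [Function.iterate_succ_apply', lv_par, ih]; push_cast; ring

theorem list_unique {l l' : List Vx} (hl : l ≠ []) (hl' : l' ≠ []) (hc : l.IsChain DG.Adj)
    (hc' : l'.IsChain DG.Adj) (hn : l.Nodup) (hn' : l'.Nodup) (hh : l.head hl = l'.head hl')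
    (hg : l.getLast hl = l'.getLast hl') : l = l' := by
  obtain ⟨a, b, hm, hlen, hget⟩ := updown' l hl hc hn
  obtain ⟨a', b', hm', hlen', hget'⟩ := updown' l' hl' hc' hn'
  rw [← hh, ← hg] at hm' hget'
  have e1 := congrArg lv hm
  have e2 := congrArg lv hm'
  rw [lv_iter, lv_iter] at e1 e2
  have hab : a = a' := by
    by_contra hne
    rcases Nat.lt_or_gt_of_ne hne with h | h
    · exact updown_ne hn' hlen' hget' h (s := b) (by omega) hm
    · exact updown_ne hn hlen hget h (s := b') (by omega) hm'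
  have hbb : b = b' := by omega
  subst hab
  subst hbb
  apply List.ext_getElem (by omega)
  intro t h1 h2
  rw [hget t h1, hget' t h2]

theorem DG_acyclic : DG.IsAcyclic := by
  rw [SimpleGraph.isAcyclic_iff_subsingleton_path]
  intro u v
  refine ⟨fun p q => ?_⟩
  apply Subtype.ext
  apply SimpleGraph.Walk.ext_support
  apply list_unique p.1.support_ne_nil q.1.support_ne_nil p.1.isChain_adj_support
    q.1.isChain_adj_support p.2.support_nodup q.2.support_nodup
  · rw [SimpleGraph.Walk.head_support, SimpleGraph.Walk.head_support]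
  · rw [SimpleGraph.Walk.getLast_support, SimpleGraph.Walk.getLast_support]

/-- connected vertex sets -/
def ConnS (S : Finset Vx) : Prop := (DG.induce (S : Set Vx)).Connected

theorem S0_conn {K L : ℕ} (hL : 0 < L) : ConnS (S0 K L) := by
  unfold ConnS
  rw [SimpleGraph.connected_iff_exists_forall_reachable]
  have hroot : ((L - 1, 0) : Vx) ∈ S0 K L := mem_S0.2 ⟨by simp only; omega, Or.inl rfl⟩
  refine ⟨⟨(L - 1, 0), hroot⟩, ?_⟩
  have key : ∀ d : ℕ, ∀ w : Vx, ∀ hw : w ∈ S0 K L, L - 1 - w.1 + dp w.2 = d →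
      (DG.induce ((S0 K L : Finset Vx) : Set Vx)).Reachable ⟨(L - 1, 0), hroot⟩ ⟨w, hw⟩ := by
    intro d
    induction d with
    | zero =>
      rintro ⟨i, g⟩ hw hd
      have h1 := (mem_S0.1 hw).1
      simp only at hd h1
      have h2 : g = 0 := by rw [← dp_zero]; omega
      have h3 : i = L - 1 := by omega
      subst h2
      subst h3
      exact SimpleGraph.Reachable.refl _
    | succ d ih =>
      rintro ⟨i, g⟩ hw hd
      have h1 := mem_S0.1 hw
      simp only at hd
      by_cases hg : g = 0
      · have hdp : dp g = 0 := (dp_zero g).2 hg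
        subst hg
        have hm : ((i + 1, 0) : Vx) ∈ S0 K L := mem_S0.2 ⟨by simp only; omega, Or.inl rfl⟩
        have := ih (i + 1, 0) hm (by simp only; omega)
        refine this.trans (SimpleGraph.Adj.reachable ?_)
        show DG.Adj (i + 1, 0) (i, 0)
        exact (spine_adj i).symm
      · have hdp := dp_pg g
        have hdp0 : dp g ≠ 0 := by rw [Ne, dp_zero]; exact hg
        have hok : W K i = W K (i + 2) := h1.2.resolve_left hg
        have hm : ((i, pg g) : Vx) ∈ S0 K L := mem_S0.2 ⟨h1.1, Or.inr hok⟩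
        have := ih (i, pg g) hm (by simp only; omega)
        refine this.trans (SimpleGraph.Adj.reachable ?_)
        show DG.Adj (i, pg g) (i, g)
        exact (gad_adj i hg).symm
  intro w
  exact key _ w.1 w.2 rfl

theorem NRS_comp {k m : ℕ} {S : Finset Vx} {c : Vx → Fin k} (h : NRS S c) {f : Fin k → Fin m}
    (hf : Function.Injective f) : NRS S (f ∘ c) := by
  intro l h1 h2 h3 n hn hlen heq
  apply h l h1 h2 h3 n hn hlen
  rw [← List.map_map, ← List.map_take, ← List.map_drop] at heq
  exact List.map_injective_iff.2 hf heq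

theorem four_col {S : Finset Vx} {v : Vx} {c : Vx → Fin 3} (h : NRS (S.erase v) c) :
    NRS S (fun x => if x = v then (3 : Fin 4) else (c x).castSucc) := by
  intro l h1 h2 h3 n hn hlen heq
  by_cases hv : v ∈ l
  · obtain ⟨t, ht, htv⟩ := List.getElem_of_mem hv
    have hsq := sq_getElem hlen heq
    rcases Nat.lt_or_ge t n with h4 | h4
    · have h5 := hsq t h4
      simp only [htv, if_true] at h5
      have h6 : l[t + n]'(by omega) ≠ v := by
        intro h7
        rw [← htv] at h7
        have := (List.Nodup.getElem_inj_iff h3).1 h7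
        omega
      simp only [h6, if_false] at h5
      have := congrArg Fin.val h5
      have h8 := (c (l[t + n]'(by omega))).2
      simp at this
      omega
    · have h5 := hsq (t - n) (by omega)
      have e : t - n + n = t := by omega
      simp only [e, htv, if_true] at h5
      have h6 : l[t - n]'(by omega) ≠ v := by
        intro h7
        rw [← htv] at h7
        have := (List.Nodup.getElem_inj_iff h3).1 h7
        omega
      simp only [h6, if_false] at h5
      have := congrArg Fin.val h5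
      have h8 := (c (l[t - n]'(by omega))).2
      simp at this
      omega
  · have h4 : l.map (fun x => if x = v then (3 : Fin 4) else (c x).castSucc) =
        l.map (Fin.castSucc ∘ c) := by
      apply List.map_congr_left
      intro x hx
      have : x ≠ v := fun h => hv (h ▸ hx)
      simp [this]
    rw [h4] at heq
    exact NRS_comp h (Fin.castSucc_injective 3) l
      (fun x hx => Finset.mem_erase.2 ⟨fun h => hv (h ▸ hx), h1 x hx⟩) h2 h3 n hn hlen heq

theorem ConnS_erase {S : Finset Vx} (h : ConnS S) (hS : 1 < S.card) :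
    ∃ v ∈ S, ConnS (S.erase v) := by
  unfold ConnS at h
  have : Nontrivial ((S : Set Vx)) := by
    rw [Set.nontrivial_coe_sort]
    exact (Finset.one_lt_card_iff_nontrivial.1 hS)
  obtain ⟨v, hv⟩ := h.exists_connected_induce_compl_singleton_of_finite_nontrivial
  refine ⟨v.1, v.2, ?_⟩
  unfold ConnS
  refine SimpleGraph.Connected.map
    (G := (DG.induce (S : Set Vx)).induce {v}ᶜ)
    ⟨fun x => ⟨x.1.1, ?_⟩, ?_⟩ ?_ hv
  · rw [Finset.mem_coe, Finset.mem_erase]
    refine ⟨?_, x.1.2⟩
    intro h1
    exact x.2 (Subtype.ext h1)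
  · intro x y hxy
    exact hxy
  · rintro ⟨y, hy⟩
    rw [Finset.mem_coe, Finset.mem_erase] at hy
    refine ⟨⟨⟨y, hy.2⟩, ?_⟩, rfl⟩
    intro h1
    exact hy.1 (congrArg Subtype.val h1)

theorem exists_crit (N : ℕ) : ∃ S : Finset Vx, N ≤ S.card ∧ ConnS S ∧
    (∀ c : Vx → Fin 3, ¬ NRS S c) ∧ (∃ c : Vx → Fin 4, NRS S c) ∧
    ∀ T, T ⊂ S → ConnS T → ∃ c : Vx → Fin 3, NRS T c := by
  classical
  obtain ⟨n, hn1, hnN⟩ : ∃ n, 1 ≤ n ∧ N + 4 ≤ 23 ^ n := by
    refine ⟨N + 4, by omega, ?_⟩
    exact (Nat.lt_pow_self (by norm_num)).le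
  have hex : ∃ m : ℕ, ∃ S : Finset Vx, S.card = m ∧ S ⊆ S0 (23 ^ n) (4 * 23 ^ n + 10) ∧ ConnS S ∧
      ∀ c : Vx → Fin 3, ¬ NRS S c :=
    ⟨_, _, rfl, subset_rfl, S0_conn (by omega), not_nrs n hn1⟩
  obtain ⟨S, hcard, hsub, hconn, hnc⟩ := Nat.find_spec hex
  have hmin : ∀ T, T ⊂ S → ConnS T → ∃ c : Vx → Fin 3, NRS T c := by
    intro T hT hTc
    by_contra hcon
    push Not at hcon
    have h1 : T.card < Nat.find hex := by
      rw [← hcard]; exact Finset.card_lt_card hT
    exact Nat.find_min hex h1 ⟨T, rfl, hT.subset.trans hsub, hTc, hcon⟩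
  have hbig : 23 ^ n < S.card + 2 := by
    by_contra hcon
    exact hnc _ (short_nrs n S (fun x hx => (mem_S0.1 (hsub hx)).2) (by omega))
  refine ⟨S, by omega, hconn, hnc, ?_, hmin⟩
  obtain ⟨v, hvS, hv⟩ := ConnS_erase hconn (by omega)
  obtain ⟨c, hc⟩ := hmin _ (Finset.erase_ssubset hvS) hv
  exact ⟨_, four_col hc⟩

end Pool.Agent.Helper814.Thue
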