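import Mathlib
import Pool.Agent.Helper814.ThueCrit

set_option autoImplicit false

namespace Pool.Agent.Helper814.Thue

/-- Pulling a colouring back along an embedding. -/
theorem walk_nr {k : ℕ} {S : Finset Vx} {c : Vx → Fin k} (h : NRS S c) {V' : Type} {G' : SimpleGraph V'}
    (f : V' → Vx) (hf : Function.Injective f) (hS : ∀ x, f x ∈ S)
    (hadj : ∀ x y, G'.Adj x y → DG.Adj (f x) (f y)) (u v : V') (p : G'.Walk u v) (hp : p.IsPath)
    (n : ℕ) (hn : 0 < n) (hlen : p.support.length = 2 * n) :
    (p.support.map (fun x => c (f x))).take n ≠ (p.support.map (fun x => c (f x))).drop n := by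
  have h1 := h (p.support.map f) ?_ ?_ ?_ n hn (by simpa using hlen)
  · rw [List.map_map] at h1
    exact h1
  · intro x hx
    rw [List.mem_map] at hx
    obtain ⟨y, _, rfl⟩ := hx
    exact hS y
  · rw [List.isChain_map]
    exact p.isChain_adj_support.imp (fun x y h => hadj x y h)
  · exact hp.support_nodup.map hf

theorem main : ∀ N : ℕ, ∃ m : ℕ, N ≤ m ∧ ∃ G : SimpleGraph (Fin m), G.IsTree ∧
      (¬ ∃ c : Fin m → Fin 3, ∀ (u v : Fin m) (p : G.Walk u v), p.IsPath →
          ∀ n : ℕ, 0 < n → p.support.length = 2 * n →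
            (p.support.map c).take n ≠ (p.support.map c).drop n) ∧
      (∃ c : Fin m → Fin 4, ∀ (u v : Fin m) (p : G.Walk u v), p.IsPath →
          ∀ n : ℕ, 0 < n → p.support.length = 2 * n →
            (p.support.map c).take n ≠ (p.support.map c).drop n) ∧
      ∀ H : G.Subgraph, H.Connected → H ≠ ⊤ →
        ∃ c : H.verts → Fin 3, ∀ (u v : H.verts) (p : H.coe.Walk u v), p.IsPath →
          ∀ n : ℕ, 0 < n → p.support.length = 2 * n →
            (p.support.map c).take n ≠ (p.support.map c).drop n := by
  classical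
  intro N
  obtain ⟨S, hcard, hconn, hnc, ⟨c4, hc4⟩, hmin⟩ := exists_crit N
  obtain ⟨e⟩ : Nonempty (Fin S.card ≃ S) := ⟨S.equivFin.symm⟩
  obtain ⟨f, hf⟩ : ∃ f : Fin S.card → Vx, ∀ x, f x = (e x).1 := ⟨fun x => (e x).1, fun _ => rfl⟩
  have hfS : ∀ x, f x ∈ S := fun x => by rw [hf]; exact (e x).2
  have hfinj : Function.Injective f := by
    intro x y hxy
    rw [hf, hf] at hxy
    exact e.injective (Subtype.ext hxy)
  have hfsurj : ∀ y ∈ S, ∃ x, f x = y := by
    intro y hy
    refine ⟨e.symm ⟨y, hy⟩, ?_⟩
    rw [hf, Equiv.apply_symm_apply]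
  have htree : (DG.comap f).IsTree := by
    refine ⟨?_, ?_⟩
    · unfold ConnS at hconn
      refine SimpleGraph.Connected.map (G := DG.induce (S : Set Vx)) ⟨fun x => e.symm ⟨x.1, x.2⟩, ?_⟩ ?_ hconn
      · intro x y hxy
        show DG.Adj (f _) (f _)
        rw [hf, hf, Equiv.apply_symm_apply, Equiv.apply_symm_apply]
        exact hxy
      · intro y
        refine ⟨⟨(e y).1, (e y).2⟩, ?_⟩
        exact e.symm_apply_apply y
    · exact DG_acyclic.comap ⟨f, fun h => h⟩ hfinj
  refine ⟨S.card, hcard, DG.comap f, htree, ?_, ?_, ?_⟩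
  · rintro ⟨c, hc⟩
    have hne : Nonempty (Fin S.card) := htree.1.nonempty
    obtain ⟨g, hg⟩ : ∃ g : Vx → Fin S.card, ∀ x, g (f x) = x :=
      ⟨Function.invFun f, Function.leftInverse_invFun hfinj⟩
    have hfg : ∀ x ∈ S, f (g x) = x := by
      intro x hx
      obtain ⟨y, rfl⟩ := hfsurj x hx
      rw [hg]
    apply hnc (fun x => c (g x))
    intro l hlS hch hnd n hn hlen heq
    have hl0 : l ≠ [] := by
      intro h
      subst h
      simp at hlen
      omega
    have hlm : l.map g ≠ [] := by simpa using hl0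
    have hchain : (l.map g).IsChain (DG.comap f).Adj := by
      rw [List.isChain_iff_getElem] at hch ⊢
      intro i hi
      rw [List.length_map] at hi
      rw [List.getElem_map, List.getElem_map]
      show DG.Adj (f (g _)) (f (g _))
      rw [hfg _ (hlS _ (List.getElem_mem _)), hfg _ (hlS _ (List.getElem_mem _))]
      exact hch i hi
    have hsupp := SimpleGraph.Walk.support_ofSupport hlm hchain
    have hmapmap : (l.map g).map f = l := by
      rw [List.map_map]
      conv_rhs => rw [← List.map_id l]
      apply List.map_congr_left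
      intro x hx
      exact hfg x (hlS x hx)
    have hnd' : (l.map g).Nodup := by
      apply List.Nodup.of_map f
      rw [hmapmap]
      exact hnd
    apply hc _ _ (SimpleGraph.Walk.ofSupport (l.map g) hlm hchain) ?_ n hn ?_
    · rw [hsupp, List.map_map]
      exact heq
    · rw [SimpleGraph.Walk.isPath_def, hsupp]
      exact hnd'
    · rw [hsupp, List.length_map]
      exact hlen
  · exact ⟨fun x => c4 (f x), fun u v p hp n hn hlen =>
      walk_nr hc4 f hfinj hfS (fun x y h => h) u v p hp n hn hlen⟩
  · intro H hH hne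
    obtain ⟨T, hT⟩ : ∃ T : Finset Vx, T = (Finset.univ.filter (· ∈ H.verts)).image f := ⟨_, rfl⟩
    have hmemT : ∀ x, f x ∈ T ↔ x ∈ H.verts := by
      intro x
      rw [hT, Finset.mem_image]
      constructor
      · rintro ⟨y, hy, hyx⟩
        rw [hfinj hyx] at hy
        simpa using hy
      · intro hx
        exact ⟨x, by simpa using hx, rfl⟩
    have hTS : T ⊆ S := by
      intro x hx
      rw [hT, Finset.mem_image] at hx
      obtain ⟨y, _, rfl⟩ := hx
      exact hfS y
    have hTsurj : ∀ y ∈ T, ∃ x ∈ H.verts, f x = y := by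
      intro y hy
      obtain ⟨x, rfl⟩ := hfsurj y (hTS hy)
      exact ⟨x, (hmemT x).1 hy, rfl⟩
    have hTne : T ≠ S := by
      intro hTS'
      apply hne
      have hall : ∀ x, x ∈ H.verts := by
        intro x
        rw [← hmemT, hTS']
        exact hfS x
      have hsp : H.spanningCoe.Connected := by
        refine SimpleGraph.Connected.map (G := H.coe) ⟨fun x => x.1, ?_⟩ ?_ hH.coe
        · intro x y hxy
          exact hxy
        · intro x
          exact ⟨⟨x, hall x⟩, rfl⟩
      have hle := (SimpleGraph.isTree_iff_minimal_connected.1 htree).2 hsp H.spanningCoe_le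
      apply SimpleGraph.Subgraph.ext
      · rw [SimpleGraph.Subgraph.verts_top]
        exact Set.eq_univ_of_forall hall
      · funext x y
        apply propext
        constructor
        · intro h
          exact H.adj_sub h
        · intro h
          exact hle h
    have hTc : ConnS T := by
      unfold ConnS
      refine SimpleGraph.Connected.map (G := H.coe) ⟨fun x => ⟨f x.1, (hmemT x.1).2 x.2⟩, ?_⟩ ?_ hH.coe
      · intro x y hxy
        exact H.adj_sub hxy
      · rintro ⟨y, hy⟩
        obtain ⟨x, hx, rfl⟩ := hTsurj y hy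
        exact ⟨⟨x, hx⟩, rfl⟩
    obtain ⟨c, hc⟩ := hmin T (lt_of_le_of_ne hTS hTne) hTc
    exact ⟨fun x => c (f x.1), fun u v p hp n hn hlen =>
      walk_nr hc (fun x : H.verts => f x.1) (hfinj.comp Subtype.val_injective)
        (fun x => (hmemT x.1).2 x.2) (fun x y h => H.adj_sub h) u v p hp n hn hlen⟩

end Pool.Agent.Helper814.Thue
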